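import Pool.Agent.Run7.h932.RG.Stm

/-!
# Piece BAL of MP_ef9bc2_co (helper594): at least half of all the colourings are balanced
-/

set_option autoImplicit false

namespace Pool.Agent.Run7.h594.RG

open Finset Classical Run7.h932.RG

theorem sum_fun {n k : ℕ} (H : Fin n → Fin k → ℝ) :
    ∑ σ : Fin n → Fin k, ∏ y, H y (σ y) = ∏ y, ∑ i, H y i := by
  rw [Finset.prod_univ_sum, Fintype.piFinset_univ]

/-- exponential moment of the number of the neighbours of the same colour -/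
theorem exp_nb {n k : ℕ} (hk : 1 ≤ k) (x : Fin n) (E : Fin n → ℝ) :
    ∑ σ : Fin n → Fin k, ∏ y, (if x ≠ y ∧ σ x = σ y then E y else 1) =
      (k : ℝ) ^ n * ∏ y, if x = y then 1 else 1 + (E y - 1) / k := by
  have hk0 : (0 : ℝ) < k := by exact_mod_cast hk
  set H : Fin k → Fin n → Fin k → ℝ := fun j y i =>
    if x = y then (if i = j then 1 else 0) else (if i = j then E y else 1) with hH
  have h1 : ∀ σ : Fin n → Fin k, ∏ y, (if x ≠ y ∧ σ x = σ y then E y else 1) =
      ∑ j, ∏ y, H j y (σ y) := by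
    intro σ
    rw [sum_eq_single (σ x)]
    · refine prod_congr rfl fun y _ => ?_
      rw [hH]
      by_cases hxy : x = y
      · subst hxy
        simp
      · by_cases hσ : σ x = σ y
        · simp [hxy, hσ]
        · have hσ' : ¬ σ y = σ x := fun h => hσ h.symm
          simp [hxy, hσ, hσ']
    · intro j _ hj
      apply prod_eq_zero (mem_univ x)
      rw [hH]
      simp [hj.symm]
    · intro h
      exact absurd (mem_univ _) h
  simp only [h1]
  rw [sum_comm]
  have h2 : ∀ j : Fin k, ∑ σ : Fin n → Fin k, ∏ y, H j y (σ y) =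
      ∏ y, if x = y then 1 else (k : ℝ) + (E y - 1) := by
    intro j
    rw [sum_fun (H j)]
    refine prod_congr rfl fun y _ => ?_
    rw [hH]
    by_cases hxy : x = y
    · simp [hxy]
    · simp only [hxy, if_false]
      have h3 : ∀ i : Fin k, (if i = j then E y else 1) = (1 : ℝ) + if i = j then E y - 1 else 0 := by
        intro i
        split_ifs <;> ring
      simp only [h3]
      rw [sum_add_distrib]
      simp
  simp only [h2]
  rw [sum_const, card_univ, Fintype.card_fin, nsmul_eq_mul]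
  have h4 : (k : ℝ) ^ n = ∏ _y : Fin n, (k : ℝ) := by simp
  have h5 : (k : ℝ) = ∏ y : Fin n, if x = y then (k : ℝ) else 1 := by
    rw [prod_ite_eq]
    simp
  rw [h4, ← prod_mul_distrib]
  nth_rewrite 1 [h5]
  rw [← prod_mul_distrib]
  refine prod_congr rfl fun y _ => ?_
  by_cases hxy : x = y
  · simp [hxy]
  · simp only [hxy, if_false]
    field_simp

/-- averaging over one coordinate -/
theorem avg {n k : ℕ} (v : Fin n) (h : (Fin n → Fin k) → ℝ) :
    ∑ σ : Fin n → Fin k, ∑ a, h (Function.update σ v a) = k * ∑ σ, h σ := by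
  have h1 : ∑ σ : Fin n → Fin k, ∑ a, h (Function.update σ v a) =
      ∑ z : (Fin n → Fin k) × Fin k, h (Function.update z.1 v z.2) := by
    rw [Fintype.sum_prod_type]
  have h2 : ∑ z : (Fin n → Fin k) × Fin k, h (Function.update z.1 v z.2) =
      ∑ z : (Fin n → Fin k) × Fin k, h z.1 := by
    refine sum_bij' (fun z _ => (Function.update z.1 v z.2, z.1 v))
      (fun z _ => (Function.update z.1 v z.2, z.1 v)) (fun _ _ => mem_univ _)
      (fun _ _ => mem_univ _) ?_ ?_ ?_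
    · intro z _
      simp
    · intro z _
      simp
    · intro z _
      rfl
  rw [h1, h2, Fintype.sum_prod_type, mul_sum]
  refine sum_congr rfl fun σ _ => ?_
  simp

/-- the centred indicator function of the event that two vertices have the same colour -/
noncomputable def ci {n k : ℕ} (x y : Fin n) (σ : Fin n → Fin k) : ℝ :=
  (if σ x = σ y then 1 else 0) - 1 / k

theorem ci_comm {n k : ℕ} (x y : Fin n) (σ : Fin n → Fin k) : ci x y σ = ci y x σ := by
  unfold ci
  simp only [eq_comm]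

theorem cov_aux {n k : ℕ} (hk : 1 ≤ k) (v u : Fin n) (huv : u ≠ v) (g : (Fin n → Fin k) → ℝ)
    (hg : ∀ σ a, g (Function.update σ v a) = g σ) : ∑ σ, ci v u σ * g σ = 0 := by
  have hk0 : (k : ℝ) ≠ 0 := by
    have : (0 : ℝ) < k := by exact_mod_cast hk
    exact this.ne'
  have h1 := avg v fun σ : Fin n → Fin k => ci v u σ * g σ
  have h2 : ∀ σ : Fin n → Fin k, ∑ a, ci v u (Function.update σ v a) * g (Function.update σ v a)
      = 0 := by
    intro σ
    simp only [hg]
    rw [← sum_mul]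
    have h3 : ∑ a, ci v u (Function.update σ v a) = 0 := by
      unfold ci
      rw [sum_sub_distrib]
      simp only [Function.update_self, Function.update_of_ne huv]
      simp
      field_simp
      simp
    rw [h3, zero_mul]
  simp only [h2, sum_const_zero] at h1
  rcases mul_eq_zero.1 h1.symm with h4 | h4
  · exact absurd h4 hk0
  · exact h4

theorem cov {n k : ℕ} (hk : 1 ≤ k) (x y x' y' : Fin n) (hxy : x < y) (hxy' : x' < y')
    (hne : (x, y) ≠ (x', y')) : ∑ σ : Fin n → Fin k, ci x y σ * ci x' y' σ = 0 := by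
  have hgen : ∀ v : Fin n, v ≠ x' → v ≠ y' → ∀ (σ : Fin n → Fin k) (a : Fin k),
      ci x' y' (Function.update σ v a) = ci x' y' σ := by
    intro v h1 h2 σ a
    unfold ci
    rw [Function.update_of_ne h1.symm, Function.update_of_ne h2.symm]
  by_cases h1 : x ≠ x' ∧ x ≠ y'
  · exact cov_aux hk x y hxy.ne' _ (hgen x h1.1 h1.2)
  · by_cases h2 : y ≠ x' ∧ y ≠ y'
    · simp only [ci_comm x y]
      exact cov_aux hk y x hxy.ne _ (hgen y h2.1 h2.2)
    · exfalso
      apply hne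
      rw [Prod.mk.injEq]
      omega

theorem ci_sq {n k : ℕ} (hk : 1 ≤ k) (x y : Fin n) (σ : Fin n → Fin k) : ci x y σ ^ 2 ≤ 1 := by
  have hk0 : (0 : ℝ) < k := by exact_mod_cast hk
  have h1 : (1 : ℝ) / k ≤ 1 := by
    rw [div_le_one hk0]
    exact_mod_cast hk
  have h2 : (0 : ℝ) ≤ 1 / k := by positivity
  unfold ci
  rw [sq_le_one_iff_abs_le_one, abs_le]
  split_ifs
  · constructor <;> linarith
  · constructor <;> linarith

theorem var_le {n k : ℕ} (hk : 1 ≤ k) (p : Fin n → Fin n → ℝ) (Δ q : ℝ) (h0 : ∀ x y, 0 ≤ p x y)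
    (hq : ∀ x y, p x y ≤ q) (hq0 : 0 ≤ q) (hdeg : ∀ x, ∑ y, p x y ≤ Δ) :
    ∑ σ : Fin n → Fin k, (Ps p σ - PP p / k) ^ 2 ≤ (k : ℝ) ^ n * (q * (n * Δ)) := by
  set a : Fin n × Fin n → (Fin n → Fin k) → ℝ := fun z σ =>
    if z.1 < z.2 then p z.1 z.2 * ci z.1 z.2 σ else 0 with ha
  have h1 : ∀ σ : Fin n → Fin k, Ps p σ - PP p / k = ∑ z, a z σ := by
    intro σ
    unfold Ps PP
    rw [sum_div, ← sum_sub_distrib, Fintype.sum_prod_type_right]
    refine sum_congr rfl fun y _ => ?_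
    rw [sum_div, ← sum_sub_distrib]
    refine sum_congr rfl fun x _ => ?_
    rw [ha]
    unfold ci
    by_cases hxy : x < y
    · by_cases hσ : σ x = σ y
      · simp only [hxy, hσ, and_self, if_true]
        ring
      · simp only [hxy, hσ, and_false, if_true, if_false]
        ring
    · simp only [hxy, false_and, if_false]
      ring
  have h2 : ∀ σ : Fin n → Fin k, (Ps p σ - PP p / k) ^ 2 = ∑ z, ∑ z', a z σ * a z' σ := by
    intro σ
    rw [h1, sq, sum_mul_sum]
  simp only [h2]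
  rw [sum_comm]
  have h3 : ∀ z, ∑ σ : Fin n → Fin k, ∑ z', a z σ * a z' σ = ∑ σ, a z σ * a z σ := by
    intro z
    rw [sum_comm, sum_eq_single z]
    · intro z' _ hz'
      rw [ha]
      simp only
      by_cases h4 : z.1 < z.2
      · by_cases h5 : z'.1 < z'.2
        · simp only [h4, h5, if_true]
          have h6 := cov hk z.1 z.2 z'.1 z'.2 h4 h5 (fun h => hz' (by
            rw [Prod.mk.eta, Prod.mk.eta] at h
            exact h.symm))
          have h7 : ∑ σ : Fin n → Fin k, p z.1 z.2 * ci z.1 z.2 σ * (p z'.1 z'.2 * ci z'.1 z'.2 σ) =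
              p z.1 z.2 * p z'.1 z'.2 * ∑ σ : Fin n → Fin k, ci z.1 z.2 σ * ci z'.1 z'.2 σ := by
            rw [mul_sum]
            refine sum_congr rfl fun σ _ => ?_
            ring
          rw [h7, h6, mul_zero]
        · simp [h5]
      · simp [h4]
    · intro h
      exact absurd (mem_univ _) h
  simp only [h3]
  have h8 : ∀ (z : Fin n × Fin n) (σ : Fin n → Fin k), a z σ * a z σ ≤ q * p z.1 z.2 := by
    intro z σ
    rw [ha]
    simp only
    split_ifs
    · have h9 := ci_sq hk z.1 z.2 σ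
      have h10 := h0 z.1 z.2
      have h11 := hq z.1 z.2
      calc p z.1 z.2 * ci z.1 z.2 σ * (p z.1 z.2 * ci z.1 z.2 σ)
          = p z.1 z.2 * p z.1 z.2 * ci z.1 z.2 σ ^ 2 := by ring
        _ ≤ p z.1 z.2 * p z.1 z.2 * 1 := by gcongr
        _ ≤ q * p z.1 z.2 := by
            rw [mul_one]
            exact mul_le_mul_of_nonneg_right h11 h10
    · rw [mul_zero]
      exact mul_nonneg hq0 (h0 _ _)
  calc ∑ z, ∑ σ : Fin n → Fin k, a z σ * a z σ
      ≤ ∑ z : Fin n × Fin n, ∑ _σ : Fin n → Fin k, q * p z.1 z.2 :=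
        sum_le_sum fun z _ => sum_le_sum fun σ _ => h8 z σ
    _ = (k : ℝ) ^ n * (q * ∑ z : Fin n × Fin n, p z.1 z.2) := by
        simp only [sum_const, card_univ, Fintype.card_pi, Fintype.card_fin, prod_const,
          nsmul_eq_mul, ← mul_sum]
        push_cast
        ring
    _ ≤ (k : ℝ) ^ n * (q * (n * Δ)) := by
        gcongr
        rw [Fintype.sum_prod_type]
        calc ∑ x, ∑ y, p x y ≤ ∑ _x : Fin n, Δ := sum_le_sum fun x _ => hdeg x
          _ = _ := by simp

/-- Chebyshev -/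
theorem bad2 {n k : ℕ} (hk : 1 ≤ k) (hn : 1 ≤ n) (p : Fin n → Fin n → ℝ) (Δ : ℝ) (hp : Hyp p Δ) :
    ((univ.filter fun σ : Fin n → Fin k => ¬ |Ps p σ - PP p / k| ≤ (n : ℝ) ^ (1 / 2 : ℝ)).card : ℝ) ≤
      (k : ℝ) ^ n * (Δ * (n : ℝ) ^ (-(9 / 10) : ℝ)) := by
  have hn0 : (0 : ℝ) < n := by exact_mod_cast hn
  have h1 := var_le hk p Δ ((n : ℝ) ^ (-(9 / 10) : ℝ)) hp.nonneg hp.small (by positivity) hp.deg
  have h2 : ((univ.filter fun σ : Fin n → Fin k =>
      ¬ |Ps p σ - PP p / k| ≤ (n : ℝ) ^ (1 / 2 : ℝ)).card : ℝ) * n ≤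
      ∑ σ : Fin n → Fin k, (Ps p σ - PP p / k) ^ 2 := by
    rw [← nsmul_eq_mul, ← sum_const]
    refine (sum_le_sum fun σ hσ => ?_).trans
      (sum_le_univ_sum_of_nonneg fun σ => sq_nonneg (Ps p σ - PP p / k))
    rw [mem_filter, not_le] at hσ
    have h3 : ((n : ℝ) ^ (1 / 2 : ℝ)) ^ 2 = n := by
      rw [← Real.rpow_natCast, ← Real.rpow_mul hn0.le]
      norm_num
    rw [← h3, ← sq_abs (Ps p σ - PP p / k)]
    exact pow_le_pow_left₀ (by positivity) hσ.2.le 2
  have h4 := h2.trans h1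
  have h5 : (k : ℝ) ^ n * ((n : ℝ) ^ (-(9 / 10) : ℝ) * (n * Δ)) =
      (k : ℝ) ^ n * (Δ * (n : ℝ) ^ (-(9 / 10) : ℝ)) * n := by ring
  rw [h5] at h4
  exact le_of_mul_le_mul_right h4 hn0

/-- Chernoff for one vertex -/
theorem bad1 {n k : ℕ} (hk : 2 ≤ k) (hn : 1 ≤ n) (p : Fin n → Fin n → ℝ) (Δ c : ℝ) (hΔ : 0 < Δ)
    (hc0 : 0 < c) (hc1 : c ≤ 1) (hcΔ : c * Δ ≤ 1 / 2) (hp : Hyp p Δ) (x : Fin n) :
    ((univ.filter fun σ : Fin n → Fin k =>
      ¬ (∑ y, if x ≠ y ∧ σ x = σ y then p x y else 0) ≤ (∑ y, p x y) / k + 1 / 2).card : ℝ) ≤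
      (k : ℝ) ^ n * Real.exp (-(c * (n : ℝ) ^ (9 / 10 : ℝ) / 4)) := by
  have hn0 : (0 : ℝ) < n := by exact_mod_cast hn
  have hk0 : (0 : ℝ) < k := by
    have : (0 : ℕ) < k := by omega
    exact_mod_cast this
  have hk2 : (2 : ℝ) ≤ k := by exact_mod_cast hk
  set lam : ℝ := c * (n : ℝ) ^ (9 / 10 : ℝ) with hlam
  have hlam0 : 0 < lam := by positivity
  have hlp : ∀ y, lam * p x y ≤ c := by
    intro y
    calc lam * p x y ≤ lam * (n : ℝ) ^ (-(9 / 10) : ℝ) :=
          mul_le_mul_of_nonneg_left (hp.small x y) hlam0.le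
      _ = c * ((n : ℝ) ^ (9 / 10 : ℝ) * (n : ℝ) ^ (-(9 / 10) : ℝ)) := by rw [hlam]; ring
      _ = c := by
          rw [← Real.rpow_add hn0]
          norm_num
  have hexp : ∀ y, Real.exp (lam * p x y) - 1 ≤ lam * (1 + c) * p x y := by
    intro y
    have h1 : 0 ≤ lam * p x y := mul_nonneg hlam0.le (hp.nonneg x y)
    have h2 := Real.abs_exp_sub_one_sub_id_le (x := lam * p x y) (by
      rw [abs_of_nonneg h1]
      exact (hlp y).trans hc1)
    have h3 := (abs_le.1 h2).2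
    have h4 : (lam * p x y) ^ 2 ≤ c * (lam * p x y) := by
      rw [sq]
      exact mul_le_mul_of_nonneg_right (hlp y) h1
    linarith
  set D : ℝ := ∑ y, p x y with hD
  have hD1 : D ≤ Δ := hp.deg x
  have hD0 : 0 ≤ D := sum_nonneg fun y _ => hp.nonneg x y
  have h5 : ∑ σ : Fin n → Fin k, Real.exp (lam * ∑ y, if x ≠ y ∧ σ x = σ y then p x y else 0) ≤
      (k : ℝ) ^ n * Real.exp (lam * (1 + c) * D / k) := by
    have h6 : ∀ σ : Fin n → Fin k,
        Real.exp (lam * ∑ y, if x ≠ y ∧ σ x = σ y then p x y else 0) =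
        ∏ y, (if x ≠ y ∧ σ x = σ y then Real.exp (lam * p x y) else 1) := by
      intro σ
      rw [mul_sum, Real.exp_sum]
      refine prod_congr rfl fun y _ => ?_
      split_ifs
      · rfl
      · simp
    simp only [h6]
    rw [exp_nb (by omega) x fun y => Real.exp (lam * p x y)]
    gcongr
    have h7 : Real.exp (lam * (1 + c) * D / k) = ∏ y, Real.exp (lam * (1 + c) * p x y / k) := by
      rw [← Real.exp_sum, hD, mul_sum, sum_div]
    rw [h7]
    refine prod_le_prod (fun y _ => ?_) fun y _ => ?_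
    · have h8 : 1 ≤ Real.exp (lam * p x y) := Real.one_le_exp (mul_nonneg hlam0.le (hp.nonneg x y))
      split_ifs
      · exact zero_le_one
      · have : 0 ≤ (Real.exp (lam * p x y) - 1) / k := div_nonneg (by linarith) hk0.le
        linarith
    · split_ifs
      · exact Real.one_le_exp (div_nonneg (mul_nonneg (by positivity) (hp.nonneg x y)) hk0.le)
      · have h9 : (Real.exp (lam * p x y) - 1) / k ≤ lam * (1 + c) * p x y / k :=
          div_le_div_of_nonneg_right (hexp y) hk0.le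
        have h10 := Real.add_one_le_exp (lam * (1 + c) * p x y / k)
        linarith
  have h11 : ((univ.filter fun σ : Fin n → Fin k =>
      ¬ (∑ y, if x ≠ y ∧ σ x = σ y then p x y else 0) ≤ D / k + 1 / 2).card : ℝ) *
      Real.exp (lam * (D / k + 1 / 2)) ≤
      ∑ σ : Fin n → Fin k, Real.exp (lam * ∑ y, if x ≠ y ∧ σ x = σ y then p x y else 0) := by
    rw [← nsmul_eq_mul, ← sum_const]
    refine (sum_le_sum fun σ hσ => ?_).trans
      (sum_le_univ_sum_of_nonneg fun σ => (Real.exp_pos _).le)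
    rw [mem_filter, not_le] at hσ
    exact Real.exp_le_exp.2 (mul_le_mul_of_nonneg_left hσ.2.le hlam0.le)
  have h12 := h11.trans h5
  rw [← le_div_iff₀ (Real.exp_pos _), mul_div_assoc, ← Real.exp_sub] at h12
  refine h12.trans ?_
  gcongr
  have h13 : lam * (1 + c) * D / k - lam * (D / k + 1 / 2) = lam * (c * D / k) - lam / 2 := by
    field_simp
    ring
  have h14 : c * D / k ≤ 1 / 4 := by
    rw [div_le_iff₀ hk0]
    have h15 : c * D ≤ c * Δ := mul_le_mul_of_nonneg_left hD1 hc0.le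
    linarith
  rw [h13]
  nlinarith

theorem t_BAL : S_BAL := by
  intro k Δ hk hΔ
  have hk0 : (0 : ℝ) < k := by
    have : (0 : ℕ) < k := by omega
    exact_mod_cast this
  set c : ℝ := min 1 (1 / (2 * Δ)) with hc
  have hc0 : 0 < c := lt_min one_pos (by positivity)
  have hc1 : c ≤ 1 := min_le_left _ _
  have hcΔ : c * Δ ≤ 1 / 2 := by
    calc c * Δ ≤ 1 / (2 * Δ) * Δ := mul_le_mul_of_nonneg_right (min_le_right _ _) hΔ.le
      _ = 1 / 2 := by field_simp
  have ht1 : Filter.Tendsto (fun n : ℕ => (n : ℝ) ^ (9 / 10 : ℝ)) Filter.atTop Filter.atTop :=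
    (tendsto_rpow_atTop (by norm_num)).comp tendsto_natCast_atTop_atTop
  have ht2 : Filter.Tendsto (fun n : ℕ => (n : ℝ) ^ (8 / 10 : ℝ)) Filter.atTop Filter.atTop :=
    (tendsto_rpow_atTop (by norm_num)).comp tendsto_natCast_atTop_atTop
  obtain ⟨n₀, hn₀⟩ := Filter.eventually_atTop.1
    ((ht1.eventually_ge_atTop (4 * Δ)).and (ht2.eventually_ge_atTop (128 / c ^ 2)))
  refine ⟨max n₀ 1, fun n hn p hp => ?_⟩
  have hn1 : 1 ≤ n := le_of_max_le_right hn
  have hn0 : (0 : ℝ) < n := by exact_mod_cast hn1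
  obtain ⟨h1, h2⟩ := hn₀ n (le_of_max_le_left hn)
  have hb2 := bad2 (k := k) (by omega) hn1 p Δ hp
  have hb1 := bad1 (k := k) hk hn1 p Δ c hΔ hc0 hc1 hcΔ hp
  have h3 : Δ * (n : ℝ) ^ (-(9 / 10) : ℝ) ≤ 1 / 4 := by
    rw [Real.rpow_neg hn0.le, ← div_eq_mul_inv, div_le_iff₀ (by positivity)]
    linarith
  have h4 : (n : ℝ) * Real.exp (-(c * (n : ℝ) ^ (9 / 10 : ℝ) / 4)) ≤ 1 / 4 := by
    rw [Real.exp_neg, ← div_eq_mul_inv, div_le_iff₀ (Real.exp_pos _)]
    set y := c * (n : ℝ) ^ (9 / 10 : ℝ) / 4 with hy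
    have hy0 : 0 ≤ y := by positivity
    have h5 : y ^ 2 / 2 ≤ Real.exp y := by
      have := Real.quadratic_le_exp_of_nonneg hy0
      linarith
    have h6 : y ^ 2 / 2 = c ^ 2 / 32 * ((n : ℝ) * (n : ℝ) ^ (8 / 10 : ℝ)) := by
      rw [hy]
      have h7 : ((n : ℝ) ^ (9 / 10 : ℝ)) ^ 2 = (n : ℝ) * (n : ℝ) ^ (8 / 10 : ℝ) := by
        rw [← Real.rpow_natCast, ← Real.rpow_mul hn0.le]
        nth_rewrite 2 [← Real.rpow_one (n : ℝ)]
        rw [← Real.rpow_add hn0]
        norm_num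
      rw [div_pow, mul_pow, h7]
      ring
    have h8 : c ^ 2 / 32 * ((n : ℝ) * (128 / c ^ 2)) ≤ Real.exp y := by
      refine le_trans ?_ h5
      rw [h6]
      gcongr
    have h9 : c ^ 2 / 32 * ((n : ℝ) * (128 / c ^ 2)) = 4 * n := by
      field_simp
      ring
    linarith
  -- the union bound
  have htot : (k : ℝ) ^ n = ((univ : Finset (Fin n → Fin k)).card : ℝ) := by
    rw [card_univ, Fintype.card_pi]
    simp
  have hcov : (univ : Finset (Fin n → Fin k)) ⊆ (univ.filter fun σ : Fin n → Fin k => Good p σ) ∪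
      ((univ.filter fun σ : Fin n → Fin k => ¬ |Ps p σ - PP p / k| ≤ (n : ℝ) ^ (1 / 2 : ℝ)) ∪
        (univ : Finset (Fin n)).biUnion fun x => univ.filter fun σ : Fin n → Fin k =>
          ¬ (∑ y, if x ≠ y ∧ σ x = σ y then p x y else 0) ≤ (∑ y, p x y) / k + 1 / 2) := by
    intro σ _
    rw [mem_union, mem_union, mem_filter, mem_filter, mem_biUnion]
    by_cases hg1 : ∀ x, (∑ y, if x ≠ y ∧ σ x = σ y then p x y else 0) ≤ (∑ y, p x y) / k + 1 / 2
    · by_cases hg2 : |Ps p σ - PP p / k| ≤ (n : ℝ) ^ (1 / 2 : ℝ)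
      · left
        exact ⟨mem_univ _, hg1, hg2⟩
      · right
        left
        exact ⟨mem_univ _, hg2⟩
    · right
      right
      push Not at hg1
      obtain ⟨x, hx⟩ := hg1
      refine ⟨x, mem_univ _, ?_⟩
      rw [mem_filter]
      exact ⟨mem_univ _, not_le.2 hx⟩
  have hcard := (card_le_card hcov).trans ((card_union_le _ _).trans
    (Nat.add_le_add_left ((card_union_le _ _).trans (Nat.add_le_add_left card_biUnion_le _)) _))
  have hcard' : (k : ℝ) ^ n ≤ ((univ.filter fun σ : Fin n → Fin k => Good p σ).card : ℝ) +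
      (((univ.filter fun σ : Fin n → Fin k =>
        ¬ |Ps p σ - PP p / k| ≤ (n : ℝ) ^ (1 / 2 : ℝ)).card : ℝ) +
        ∑ x : Fin n, ((univ.filter fun σ : Fin n → Fin k =>
          ¬ (∑ y, if x ≠ y ∧ σ x = σ y then p x y else 0) ≤ (∑ y, p x y) / k + 1 / 2).card : ℝ)) := by
    rw [htot]
    exact_mod_cast hcard
  have hsum : ∑ x : Fin n, ((univ.filter fun σ : Fin n → Fin k =>
          ¬ (∑ y, if x ≠ y ∧ σ x = σ y then p x y else 0) ≤ (∑ y, p x y) / k + 1 / 2).card : ℝ) ≤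
      (k : ℝ) ^ n * (1 / 4) := by
    calc _ ≤ ∑ _x : Fin n, (k : ℝ) ^ n * Real.exp (-(c * (n : ℝ) ^ (9 / 10 : ℝ) / 4)) :=
          sum_le_sum fun x _ => hb1 x
      _ = (k : ℝ) ^ n * ((n : ℝ) * Real.exp (-(c * (n : ℝ) ^ (9 / 10 : ℝ) / 4))) := by
          rw [sum_const, card_univ, Fintype.card_fin, nsmul_eq_mul]
          ring
      _ ≤ _ := by gcongr
  have hb2' : ((univ.filter fun σ : Fin n → Fin k =>
        ¬ |Ps p σ - PP p / k| ≤ (n : ℝ) ^ (1 / 2 : ℝ)).card : ℝ) ≤ (k : ℝ) ^ n * (1 / 4) := by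
    refine hb2.trans ?_
    gcongr
  linarith

end Pool.Agent.Run7.h594.RG
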