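import Pool.Agent.Run7.h932.RG.Stm

/-!
# Piece ISO of MP_ef9bc2_co (helper594): concentration in product spaces for the Hamming distance
-/

set_option autoImplicit false

namespace Pool.Agent.Run7.h594.RG

open Finset Classical Run7.h932.RG

theorem lin_bd (E m v : ℝ) (h1 : m * v ≤ 1) (h2 : m ≤ E) (h0 : 0 ≤ v) (hv : v ≤ 1) :
    m ≤ 1 + E - E * v := by
  by_cases h : E * v ≤ 1
  · linarith
  · push Not at h
    have hv0 : 0 < v := by
      rcases h0.lt_or_eq with h3 | h3
      · exact h3
      · rw [← h3, mul_zero] at h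
        linarith
    have h4 : m * v ≤ (1 + E - E * v) * v := by
      nlinarith [mul_nonneg (sub_nonneg.2 hv) (sub_nonneg.2 h.le)]
    exact le_of_mul_le_mul_right h4 hv0

/-- the one step inequality -/
theorem step {α : Type} [Fintype α] (w u G : α → ℝ) (K p E : ℝ) (hK : 0 < K) (hp : 0 < p)
    (hE : 0 < E) (hw : ∀ a, 0 ≤ w a) (hw1 : ∑ a, w a = 1) (hu0 : ∀ a, 0 ≤ u a)
    (hup : ∀ a, u a ≤ p) (h1 : ∀ a, u a * G a ≤ K) (h2 : ∀ a, p * G a ≤ E * K) :
    (∑ a, w a * u a) * (∑ a, w a * G a) ≤ K * ((2 + E + E⁻¹) / 4) := by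
  have hb : ∀ a, p * G a / K ≤ 1 + E - E * (u a / p) := by
    intro a
    apply lin_bd
    · have h3 : p * G a / K * (u a / p) = u a * G a / K := by
        field_simp
      rw [h3, div_le_one hK]
      exact h1 a
    · rw [div_le_iff₀ hK]
      exact h2 a
    · exact div_nonneg (hu0 a) hp.le
    · rw [div_le_one hp]
      exact hup a
  set x := ∑ a, w a * (u a / p) with hx
  have hx0 : 0 ≤ x := sum_nonneg fun a _ => mul_nonneg (hw a) (div_nonneg (hu0 a) hp.le)
  have h3 : ∑ a, w a * u a = p * x := by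
    rw [hx, mul_sum]
    refine sum_congr rfl fun a _ => ?_
    field_simp
  have h4 : ∑ a, w a * G a = K / p * ∑ a, w a * (p * G a / K) := by
    rw [mul_sum]
    refine sum_congr rfl fun a _ => ?_
    field_simp
  have h5 : ∑ a, w a * (p * G a / K) ≤ 1 + E - E * x := by
    calc ∑ a, w a * (p * G a / K) ≤ ∑ a, w a * (1 + E - E * (u a / p)) :=
          sum_le_sum fun a _ => mul_le_mul_of_nonneg_left (hb a) (hw a)
      _ = (1 + E) * ∑ a, w a - E * x := by
          rw [hx, mul_sum, mul_sum, ← sum_sub_distrib]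
          refine sum_congr rfl fun a _ => ?_
          ring
      _ = _ := by rw [hw1]; ring
  rw [h3, h4]
  calc p * x * (K / p * ∑ a, w a * (p * G a / K)) = K * (x * ∑ a, w a * (p * G a / K)) := by
        field_simp
    _ ≤ K * (x * (1 + E - E * x)) := by gcongr
    _ ≤ _ := by
        apply mul_le_mul_of_nonneg_left _ hK.le
        have h6 : (2 + E + E⁻¹) / 4 - x * (1 + E - E * x) = (1 + E - 2 * E * x) ^ 2 / (4 * E) := by
          field_simp
          ring
        have h7 : 0 ≤ (1 + E - 2 * E * x) ^ 2 / (4 * E) := by positivity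
        linarith

theorem sum_cons {n : ℕ} {α : Type} [Fintype α] (f : (Fin (n + 1) → α) → ℝ) :
    ∑ ω, f ω = ∑ a, ∑ ω' : Fin n → α, f (Fin.cons a ω') := by
  rw [← (Fin.consEquiv fun _ : Fin (n + 1) => α).sum_comp, Fintype.sum_prod_type]
  rfl

/-- the exponential moment -/
theorem main {α : Type} [Fintype α] (t : ℝ) (ht : 0 ≤ t) : ∀ (n : ℕ) (ν : Fin n → α → ℝ)
    (A : Finset (Fin n → α)) (g : (Fin n → α) → ℝ), (∀ y a, 0 ≤ ν y a) → (∀ y, ∑ a, ν y a = 1) →
    (∀ ω, ∀ ω' ∈ A, g ω ≤ Real.exp (t * ∑ y, if ω y ≠ ω' y then 1 else 0)) →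
    (∑ ω, if ω ∈ A then ∏ y, ν y (ω y) else 0) * (∑ ω, (∏ y, ν y (ω y)) * g ω) ≤
      ((2 + Real.exp t + (Real.exp t)⁻¹) / 4) ^ n := by
  intro n
  induction n with
  | zero =>
    intro ν A g hν hν1 hg
    rw [Fintype.sum_unique, Fintype.sum_unique]
    simp only [univ_eq_empty, prod_empty, one_mul, pow_zero]
    split_ifs with h
    · have h1 := hg default _ h
      simp at h1
      linarith
    · simp
  | succ n ih =>
    intro ν A g hν hν1 hg
    set c := (2 + Real.exp t + (Real.exp t)⁻¹) / 4 with hc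
    have hc0 : 0 < c := by positivity
    set w : (Fin n → α) → ℝ := fun ω => ∏ y, ν y.succ (ω y) with hw
    have hw0 : ∀ ω, 0 ≤ w ω := fun ω => prod_nonneg fun y _ => hν _ _
    set u : α → ℝ := fun a => ∑ ω : Fin n → α, if (Fin.cons a ω : Fin (n + 1) → α) ∈ A then w ω
      else 0 with hu
    set G : α → ℝ := fun a => ∑ ω : Fin n → α, w ω * g (Fin.cons a ω) with hG
    set B : Finset (Fin n → α) := univ.filter fun ω => ∃ a, (Fin.cons a ω : Fin (n + 1) → α) ∈ A
      with hB
    set p : ℝ := ∑ ω : Fin n → α, if ω ∈ B then w ω else 0 with hp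
    have hu0 : ∀ a, 0 ≤ u a := fun a => sum_nonneg fun ω _ => by
      split_ifs
      · exact hw0 ω
      · exact le_rfl
    have hup : ∀ a, u a ≤ p := by
      intro a
      refine sum_le_sum fun ω _ => ?_
      by_cases h1 : (Fin.cons a ω : Fin (n + 1) → α) ∈ A
      · have h2 : ω ∈ B := by
          rw [hB, mem_filter]
          exact ⟨mem_univ _, a, h1⟩
        rw [if_pos h1, if_pos h2]
      · rw [if_neg h1]
        split_ifs
        · exact hw0 ω
        · exact le_rfl
    have e1 : (∑ ω, if ω ∈ A then ∏ y, ν y (ω y) else 0) = ∑ a, ν 0 a * u a := by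
      rw [sum_cons]
      refine sum_congr rfl fun a _ => ?_
      rw [hu]
      simp only
      rw [mul_sum]
      refine sum_congr rfl fun ω _ => ?_
      rw [Fin.prod_univ_succ]
      simp only [Fin.cons_zero, Fin.cons_succ, mul_ite, mul_zero]
      rfl
    have e2 : (∑ ω, (∏ y, ν y (ω y)) * g ω) = ∑ a, ν 0 a * G a := by
      rw [sum_cons]
      refine sum_congr rfl fun a _ => ?_
      rw [hG]
      simp only
      rw [mul_sum]
      refine sum_congr rfl fun ω _ => ?_
      rw [Fin.prod_univ_succ]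
      simp only [Fin.cons_zero, Fin.cons_succ]
      rw [mul_assoc]
    rw [e1, e2]
    rcases (show 0 ≤ p from sum_nonneg fun ω _ => by
      split_ifs
      · exact hw0 ω
      · exact le_rfl).lt_or_eq with hp0 | hp0
    · rw [pow_succ]
      apply step (ν 0) u G (c ^ n) p (Real.exp t) (by positivity) hp0 (Real.exp_pos t) (hν 0)
        (hν1 0) hu0 hup
      · intro a
        have h1 := ih (fun y => ν y.succ) (univ.filter fun ω => (Fin.cons a ω : Fin (n + 1) → α) ∈ A)
          (fun ω => g (Fin.cons a ω)) (fun y b => hν _ _) (fun y => hν1 _) (by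
            intro ω ω' hω'
            rw [mem_filter] at hω'
            have h2 := hg (Fin.cons a ω) (Fin.cons a ω') hω'.2
            rw [Fin.sum_univ_succ] at h2
            simpa using h2)
        simp only [mem_filter, mem_univ, true_and] at h1
        exact h1
      · intro a
        have h1 := ih (fun y => ν y.succ) B (fun ω => (Real.exp t)⁻¹ * g (Fin.cons a ω))
          (fun y b => hν _ _) (fun y => hν1 _) (by
            intro ω ω' hω'
            rw [hB, mem_filter] at hω'
            obtain ⟨-, b, hb⟩ := hω'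
            have h2 := hg (Fin.cons a ω) (Fin.cons b ω') hb
            rw [Fin.sum_univ_succ] at h2
            simp only [Fin.cons_zero, Fin.cons_succ] at h2
            have h3 : g (Fin.cons a ω) ≤ Real.exp (t * (1 + ∑ y, if ω y ≠ ω' y then 1 else 0)) := by
              refine h2.trans (Real.exp_le_exp.2 (mul_le_mul_of_nonneg_left ?_ ht))
              gcongr
              split_ifs
              · exact le_rfl
              · exact zero_le_one
            rw [mul_add, mul_one, Real.exp_add] at h3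
            rw [inv_mul_le_iff₀ (Real.exp_pos t)]
            exact h3)
        have h4 : (∑ ω : Fin n → α, (∏ y, ν y.succ (ω y)) * ((Real.exp t)⁻¹ * g (Fin.cons a ω))) =
            (Real.exp t)⁻¹ * G a := by
          rw [hG]
          simp only
          rw [mul_sum]
          refine sum_congr rfl fun ω _ => ?_
          rw [hw]
          ring
        rw [h4] at h1
        have h5 : p * ((Real.exp t)⁻¹ * G a) ≤ c ^ n := h1
        have h6 : p * G a = Real.exp t * (p * ((Real.exp t)⁻¹ * G a)) := by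
          field_simp
        rw [h6]
        exact mul_le_mul_of_nonneg_left h5 (Real.exp_pos t).le
    · have h1 : ∑ a, ν 0 a * u a = 0 := by
        refine sum_eq_zero fun a _ => ?_
        have h2 : u a = 0 := le_antisymm ((hup a).trans hp0.symm.le) (hu0 a)
        rw [h2, mul_zero]
      rw [h1, zero_mul]
      positivity

theorem t_ISO : S_ISO := by
  intro n α _ ν A h hn hν hν1 hh
  have hn0 : (0 : ℝ) < n := by exact_mod_cast hn
  set t : ℝ := 2 * h / n with ht
  have ht0 : 0 ≤ t := by positivity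
  set S : Finset (Fin n → α) := univ.filter fun ω : Fin n → α =>
      ∀ ω' ∈ A, h ≤ ((univ.filter fun y => ω y ≠ ω' y).card : ℝ) with hS
  have hP0 : ∀ ω : Fin n → α, 0 ≤ ∏ y, ν y (ω y) := fun ω => prod_nonneg fun y _ => hν _ _
  have h1 := main t ht0 n ν A (fun ω => if ω ∈ S then Real.exp (t * h) else 0) hν hν1 (by
    intro ω ω' hω'
    split_ifs with h2
    · rw [hS, mem_filter] at h2
      have h3 := h2.2 ω' hω'
      rw [card_filter] at h3
      push_cast at h3
      exact Real.exp_le_exp.2 (mul_le_mul_of_nonneg_left h3 ht0)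
    · positivity)
  have e1 : (∑ ω, if ω ∈ A then ∏ y, ν y (ω y) else 0) = ∑ ω ∈ A, ∏ y, ν y (ω y) := by
    rw [sum_ite_mem, univ_inter]
  have e2 : (∑ ω, (∏ y, ν y (ω y)) * (if ω ∈ S then Real.exp (t * h) else 0)) =
      (∑ ω ∈ S, ∏ y, ν y (ω y)) * Real.exp (t * h) := by
    simp only [mul_ite, mul_zero]
    rw [sum_ite_mem, univ_inter, sum_mul]
  rw [e1, e2, ← mul_assoc] at h1
  have h4 : ((2 + Real.exp t + (Real.exp t)⁻¹) / 4) ≤ Real.exp (t ^ 2 / 4) := by
    have h5 : Real.cosh (t / 2) ≤ Real.exp ((t / 2) ^ 2 / 2) := Real.cosh_le_exp_half_sq _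
    have h6 : (2 + Real.exp t + (Real.exp t)⁻¹) / 4 = Real.cosh (t / 2) ^ 2 := by
      rw [Real.cosh_eq, ← Real.exp_neg]
      have h7 : Real.exp t = Real.exp (t / 2) * Real.exp (t / 2) := by
        rw [← Real.exp_add]; congr 1; ring
      have h8 : Real.exp (-t) = Real.exp (-(t / 2)) * Real.exp (-(t / 2)) := by
        rw [← Real.exp_add]; congr 1; ring
      have h9 : Real.exp (t / 2) * Real.exp (-(t / 2)) = 1 := by
        rw [← Real.exp_add]; simp
      rw [h7, h8]
      linear_combination (-(1 / 2)) * h9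
    rw [h6]
    calc Real.cosh (t / 2) ^ 2 ≤ Real.exp ((t / 2) ^ 2 / 2) ^ 2 := by
          gcongr
      _ = _ := by
          rw [← Real.exp_nat_mul]
          congr 1
          push_cast
          ring
  have h10 : ((2 + Real.exp t + (Real.exp t)⁻¹) / 4) ^ n ≤ Real.exp (n * (t ^ 2 / 4)) := by
    rw [Real.exp_nat_mul]
    gcongr
  have h11 : (∑ ω ∈ A, ∏ y, ν y (ω y)) * (∑ ω ∈ S, ∏ y, ν y (ω y)) ≤
      Real.exp (n * (t ^ 2 / 4)) * (Real.exp (t * h))⁻¹ := by
    rw [← div_eq_mul_inv, le_div_iff₀ (Real.exp_pos _)]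
    exact h1.trans h10
  refine h11.trans (le_of_eq ?_)
  rw [← Real.exp_neg, ← Real.exp_add]
  congr 1
  rw [ht]
  field_simp
  ring

end Pool.Agent.Run7.h594.RG
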