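import Pool.Agent.Run7.h932.RG.Stm

/-!
# Piece SPA of MP_ef9bc2_co (helper594): small sets span few edges
-/

set_option autoImplicit false

namespace Pool.Agent.Run7.h594.RG

open Finset Classical Run7.h932.RG

theorem expect_prod {n : ℕ} (F : Fin n → Fin n → Bool → ℝ) :
    ∑ ω : Fin n → Fin n → Bool, ∏ y, ∏ x, F y x (ω y x) = ∏ y, ∏ x, ∑ b, F y x b := by
  have h : ∀ y, ∏ x, ∑ b, F y x b = ∑ r : Fin n → Bool, ∏ x, F y x (r x) := fun y => by
    rw [Finset.prod_univ_sum, Fintype.piFinset_univ]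
  simp only [h]
  rw [Finset.prod_univ_sum, Fintype.piFinset_univ]

theorem mu_nonneg {n : ℕ} {p : Fin n → Fin n → ℝ} (h0 : ∀ x y, 0 ≤ p x y) (h1 : ∀ x y, p x y ≤ 1)
    (ω : Fin n → Fin n → Bool) : 0 ≤ mu p ω := by
  refine prod_nonneg fun y _ => prod_nonneg fun x _ => ?_
  unfold wt
  split_ifs
  · exact h0 x y
  · linarith [h1 x y]

/-- exponential moment of the number of the edges inside `U` -/
theorem exp_eU {n : ℕ} (p : Fin n → Fin n → ℝ) (U : Finset (Fin n)) (lam : ℝ) :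
    ∑ ω, mu p ω * lam ^ eU ω U =
      ∏ y, ∏ x, if x ∈ U ∧ y ∈ U ∧ x < y then 1 + (lam - 1) * p x y else 1 := by
  have h1 : ∀ ω : Fin n → Fin n → Bool, lam ^ eU ω U =
      ∏ y, ∏ x, if (x ∈ U ∧ y ∈ U ∧ x < y) ∧ ω y x = true then lam else 1 := by
    intro ω
    unfold eU
    rw [← prod_const, prod_filter, ← Fintype.prod_prod_type_right']
    refine prod_congr rfl fun z _ => ?_
    simp only [and_assoc]
  have h2 : ∀ ω : Fin n → Fin n → Bool, mu p ω * lam ^ eU ω U =
      ∏ y, ∏ x, (wt (p x y) (ω y x) *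
        if (x ∈ U ∧ y ∈ U ∧ x < y) ∧ ω y x = true then lam else 1) := by
    intro ω
    rw [h1, mu, ← prod_mul_distrib]
    refine prod_congr rfl fun y _ => ?_
    rw [← prod_mul_distrib]
  simp only [h2]
  rw [expect_prod fun y x b => wt (p x y) b *
        if (x ∈ U ∧ y ∈ U ∧ x < y) ∧ b = true then lam else 1]
  refine prod_congr rfl fun y _ => prod_congr rfl fun x _ => ?_
  rw [Fintype.sum_bool]
  unfold wt
  by_cases hc : x ∈ U ∧ y ∈ U ∧ x < y
  · simp only [hc, and_self, if_true]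
    simp
    ring
  · simp only [hc, false_and, if_false]
    simp

/-- the probability that `U` spans `10 |U|` edges -/
theorem one_set {n : ℕ} (p : Fin n → Fin n → ℝ) (q : ℝ) (hq0 : 0 < q) (h0 : ∀ x y, 0 ≤ p x y)
    (hq : ∀ x y, p x y ≤ q) (hq1 : q ≤ 1) (U : Finset (Fin n)) (hU : U.Nonempty)
    (hs : (U.card : ℝ) * q ≤ 10) :
    ∑ ω ∈ univ.filter fun ω : Fin n → Fin n → Bool => 10 * U.card ≤ eU ω U, mu p ω ≤
      ((U.card * q / 10 * Real.exp 1) ^ 10) ^ U.card := by
  have hs0 : (0 : ℝ) < U.card := by exact_mod_cast hU.card_pos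
  have hmu := mu_nonneg h0 fun x y => (hq x y).trans hq1
  set lam : ℝ := 10 / (U.card * q) with hlam
  have hl1 : 1 ≤ lam := by
    rw [hlam, le_div_iff₀ (by positivity)]
    linarith
  have hl0 : 0 < lam := by linarith
  have h1 : ∑ ω ∈ univ.filter fun ω : Fin n → Fin n → Bool => 10 * U.card ≤ eU ω U, mu p ω ≤
      ∑ ω, mu p ω * (lam ^ eU ω U * (lam ^ (10 * U.card))⁻¹) := by
    rw [sum_filter]
    refine sum_le_sum fun ω _ => ?_
    split_ifs with h2
    · have h3 : 1 ≤ lam ^ eU ω U * (lam ^ (10 * U.card))⁻¹ := by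
        rw [← div_eq_mul_inv, one_le_div (by positivity)]
        exact pow_le_pow_right₀ hl1 h2
      calc mu p ω = mu p ω * 1 := (mul_one _).symm
        _ ≤ _ := mul_le_mul_of_nonneg_left h3 (hmu ω)
    · exact mul_nonneg (hmu ω) (by positivity)
  have h4 : ∑ ω, mu p ω * (lam ^ eU ω U * (lam ^ (10 * U.card))⁻¹) =
      (∏ y, ∏ x, if x ∈ U ∧ y ∈ U ∧ x < y then 1 + (lam - 1) * p x y else 1) *
        (lam ^ (10 * U.card))⁻¹ := by
    rw [← exp_eU, sum_mul]
    refine sum_congr rfl fun ω _ => ?_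
    ring
  have h5 : (∏ y : Fin n, ∏ x : Fin n, if x ∈ U ∧ y ∈ U ∧ x < y then 1 + (lam - 1) * p x y else 1) ≤
      ∏ y : Fin n, ∏ x : Fin n, if x ∈ U ∧ y ∈ U then Real.exp (lam * q) else 1 := by
    refine prod_le_prod (fun y _ => prod_nonneg fun x _ => ?_) fun y _ =>
      prod_le_prod (fun x _ => ?_) fun x _ => ?_
    · split_ifs
      · have := mul_nonneg (sub_nonneg.2 hl1) (h0 x y)
        linarith
      · exact zero_le_one
    · split_ifs
      · have := mul_nonneg (sub_nonneg.2 hl1) (h0 x y)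
        linarith
      · exact zero_le_one
    · have h6 : 1 + (lam - 1) * p x y ≤ Real.exp (lam * q) := by
        have h7 := Real.add_one_le_exp (lam * q)
        have h8 : (lam - 1) * p x y ≤ lam * q := by
          calc (lam - 1) * p x y ≤ lam * p x y :=
                mul_le_mul_of_nonneg_right (by linarith) (h0 x y)
            _ ≤ lam * q := mul_le_mul_of_nonneg_left (hq x y) hl0.le
        linarith
      have h9 : 1 ≤ Real.exp (lam * q) := Real.one_le_exp (by positivity)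
      by_cases hx : x ∈ U
      · by_cases hy : y ∈ U
        · by_cases hxy : x < y
          · simpa [hx, hy, hxy] using h6
          · simpa [hx, hy, hxy] using h9
        · simp [hx, hy]
      · simp [hx]
  have h6 : (∏ y : Fin n, ∏ x : Fin n, if x ∈ U ∧ y ∈ U then Real.exp (lam * q) else 1) =
      Real.exp 1 ^ (10 * U.card) := by
    have h7 : ∀ y : Fin n, (∏ x : Fin n, if x ∈ U ∧ y ∈ U then Real.exp (lam * q) else 1) =
        if y ∈ U then Real.exp (lam * q) ^ U.card else 1 := by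
      intro y
      by_cases hy : y ∈ U
      · simp only [hy, and_true, if_true]
        rw [← prod_filter, prod_const]
        congr 2
        ext x
        simp
      · simp [hy]
    simp only [h7]
    rw [← prod_filter, prod_const]
    have h8 : (univ.filter fun y => y ∈ U) = U := by
      ext x
      simp
    rw [h8, ← pow_mul, ← Real.exp_nat_mul, ← Real.exp_nat_mul]
    congr 1
    rw [hlam]
    push_cast
    field_simp
  refine h1.trans ?_
  rw [h4]
  calc (∏ y, ∏ x, if x ∈ U ∧ y ∈ U ∧ x < y then 1 + (lam - 1) * p x y else 1) *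
        (lam ^ (10 * U.card))⁻¹ ≤ Real.exp 1 ^ (10 * U.card) * (lam ^ (10 * U.card))⁻¹ := by
        rw [← h6]
        exact mul_le_mul_of_nonneg_right h5 (by positivity)
    _ = _ := by
        rw [← pow_mul, ← div_eq_mul_inv, ← div_pow]
        congr 1
        rw [hlam]
        field_simp

theorem choose_le (M k : ℕ) (hk : 0 < k) : (M.choose k : ℝ) ≤ (Real.exp 1 * M / k) ^ k := by
  have hk0 : (0 : ℝ) < k := by exact_mod_cast hk
  have h1 : (M.choose k : ℝ) ≤ (M : ℝ) ^ k / (k.factorial : ℝ) := Nat.choose_le_pow_div k M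
  have h2 : (k : ℝ) ^ k / (k.factorial : ℝ) ≤ Real.exp k :=
    Real.pow_div_factorial_le_exp (k : ℝ) hk0.le k
  have hf : (0 : ℝ) < k.factorial := by exact_mod_cast Nat.factorial_pos k
  calc (M.choose k : ℝ) ≤ (M : ℝ) ^ k / (k.factorial : ℝ) := h1
    _ = ((M : ℝ) / k) ^ k * ((k : ℝ) ^ k / (k.factorial : ℝ)) := by
        rw [div_pow]
        field_simp
    _ ≤ ((M : ℝ) / k) ^ k * Real.exp k := by gcongr
    _ = _ := by
        have h3 : Real.exp (k : ℝ) = Real.exp 1 ^ k := by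
          rw [← Real.exp_nat_mul, mul_one]
        rw [h3, ← mul_pow]
        congr 1
        ring

/-- the term of the union bound for the sets of size `s` -/
theorem term_le (n s : ℕ) (hn : 1 ≤ n) (hs : 1 ≤ s) (hsn : (s : ℝ) ≤ 2 * (n : ℝ) ^ (7 / 8 : ℝ)) :
    (n.choose s : ℝ) * ((s * (n : ℝ) ^ (-(9 / 10) : ℝ) / 10 * Real.exp 1) ^ 10) ^ s ≤
      ((n : ℝ) ^ (-(1 / 8) : ℝ) / 2) ^ s := by
  have hn0 : (0 : ℝ) < n := by exact_mod_cast hn
  have hs0 : (0 : ℝ) < s := by exact_mod_cast hs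
  have h1 := choose_le n s hs
  calc (n.choose s : ℝ) * ((s * (n : ℝ) ^ (-(9 / 10) : ℝ) / 10 * Real.exp 1) ^ 10) ^ s
      ≤ (Real.exp 1 * n / s) ^ s * ((s * (n : ℝ) ^ (-(9 / 10) : ℝ) / 10 * Real.exp 1) ^ 10) ^ s := by
        gcongr
    _ = (Real.exp 1 ^ 11 / 10 ^ 10 * (s : ℝ) ^ 9 * ((n : ℝ) * ((n : ℝ) ^ (-(9 / 10) : ℝ)) ^ 10)) ^ s := by
        rw [← mul_pow]
        congr 1
        field_simp
    _ ≤ _ := by
        gcongr
        have h2 : ((n : ℝ) ^ (-(9 / 10) : ℝ)) ^ 10 = (n : ℝ) ^ (-9 : ℝ) := by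
          rw [← Real.rpow_natCast, ← Real.rpow_mul hn0.le]
          norm_num
        have h3 : (s : ℝ) ^ 9 ≤ 512 * (n : ℝ) ^ (63 / 8 : ℝ) := by
          calc (s : ℝ) ^ 9 ≤ (2 * (n : ℝ) ^ (7 / 8 : ℝ)) ^ 9 := by gcongr
            _ = _ := by
              rw [mul_pow, ← Real.rpow_natCast ((n : ℝ) ^ (7 / 8 : ℝ)), ← Real.rpow_mul hn0.le]
              norm_num
        have h4 : (n : ℝ) ^ (63 / 8 : ℝ) * ((n : ℝ) * (n : ℝ) ^ (-9 : ℝ)) =
            (n : ℝ) ^ (-(1 / 8) : ℝ) := by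
          have h5 : (n : ℝ) * (n : ℝ) ^ (-9 : ℝ) = (n : ℝ) ^ (-8 : ℝ) := by
            nth_rewrite 1 [← Real.rpow_one (n : ℝ)]
            rw [← Real.rpow_add hn0]
            norm_num
          rw [h5, ← Real.rpow_add hn0]
          norm_num
        have h6 : Real.exp 1 ^ 11 ≤ 3 ^ 11 := by
          gcongr
          exact Real.exp_one_lt_d9.le.trans (by norm_num)
        rw [h2]
        calc Real.exp 1 ^ 11 / 10 ^ 10 * (s : ℝ) ^ 9 * ((n : ℝ) * (n : ℝ) ^ (-9 : ℝ))
            ≤ 3 ^ 11 / 10 ^ 10 * (512 * (n : ℝ) ^ (63 / 8 : ℝ)) * ((n : ℝ) * (n : ℝ) ^ (-9 : ℝ)) := by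
              gcongr
          _ = (3 ^ 11 / 10 ^ 10 * 512) * ((n : ℝ) ^ (63 / 8 : ℝ) * ((n : ℝ) * (n : ℝ) ^ (-9 : ℝ))) := by
              ring
          _ = (3 ^ 11 / 10 ^ 10 * 512) * (n : ℝ) ^ (-(1 / 8) : ℝ) := by rw [h4]
          _ ≤ (1 / 2) * (n : ℝ) ^ (-(1 / 8) : ℝ) := by
              gcongr
              norm_num
          _ = _ := by ring

theorem t_SPA : S_SPA := by
  refine ⟨1, fun n hn p Δ hp => ?_⟩
  have hn0 : (0 : ℝ) < n := by exact_mod_cast hn
  have hn1 : (1 : ℝ) ≤ n := by exact_mod_cast hn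
  set q : ℝ := (n : ℝ) ^ (-(9 / 10) : ℝ) with hq
  have hq0 : 0 < q := by positivity
  have hq1 : q ≤ 1 := Real.rpow_le_one_of_one_le_of_nonpos hn1 (by norm_num)
  have hmu := mu_nonneg hp.nonneg fun x y => (hp.small x y).trans hq1
  set f : ℕ → ℝ := fun s => if 1 ≤ s ∧ (s : ℝ) ≤ 2 * (n : ℝ) ^ (7 / 8 : ℝ) then
    ((s * q / 10 * Real.exp 1) ^ 10) ^ s else 0 with hf
  have h1 : ∑ ω ∈ univ.filter fun ω : Fin n → Fin n → Bool => ∃ U : Finset (Fin n), U.Nonempty ∧
      (U.card : ℝ) ≤ 2 * (n : ℝ) ^ (7 / 8 : ℝ) ∧ 10 * U.card ≤ eU ω U, mu p ω ≤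
      ∑ U ∈ (univ : Finset (Fin n)).powerset, f U.card := by
    have h2 : ∀ U : Finset (Fin n), (∑ ω : Fin n → Fin n → Bool, if U.Nonempty ∧
        (U.card : ℝ) ≤ 2 * (n : ℝ) ^ (7 / 8 : ℝ) ∧ 10 * U.card ≤ eU ω U then mu p ω else 0) ≤
        f U.card := by
      intro U
      by_cases hU : U.Nonempty
      · by_cases hc : (U.card : ℝ) ≤ 2 * (n : ℝ) ^ (7 / 8 : ℝ)
        · have h3 : f U.card = ((U.card * q / 10 * Real.exp 1) ^ 10) ^ U.card := by
            rw [hf]
            simp only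
            rw [if_pos ⟨hU.card_pos, hc⟩]
          rw [h3]
          simp only [hU, hc, true_and]
          rw [← sum_filter]
          refine one_set p q hq0 hp.nonneg hp.small hq1 U hU ?_
          calc (U.card : ℝ) * q ≤ 2 * (n : ℝ) ^ (7 / 8 : ℝ) * q := by gcongr
            _ = 2 * (n : ℝ) ^ (-(1 / 40) : ℝ) := by
                rw [hq, mul_assoc, ← Real.rpow_add hn0]
                norm_num
            _ ≤ 2 * 1 := by
                gcongr
                exact Real.rpow_le_one_of_one_le_of_nonpos hn1 (by norm_num)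
            _ ≤ 10 := by norm_num
        · simp only [hc, false_and, and_false, if_false, sum_const_zero]
          rw [hf]
          simp only
          rw [if_neg (fun h => hc h.2)]
      · simp only [hU, false_and, if_false, sum_const_zero]
        rw [not_nonempty_iff_eq_empty] at hU
        rw [hU, hf]
        simp
    rw [sum_filter]
    calc (∑ ω : Fin n → Fin n → Bool, if ∃ U : Finset (Fin n), U.Nonempty ∧
        (U.card : ℝ) ≤ 2 * (n : ℝ) ^ (7 / 8 : ℝ) ∧ 10 * U.card ≤ eU ω U then mu p ω else 0)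
        ≤ ∑ ω : Fin n → Fin n → Bool, ∑ U : Finset (Fin n), if U.Nonempty ∧
        (U.card : ℝ) ≤ 2 * (n : ℝ) ^ (7 / 8 : ℝ) ∧ 10 * U.card ≤ eU ω U then mu p ω else 0 := by
          refine sum_le_sum fun ω _ => ?_
          have hnn : ∀ U ∈ (univ : Finset (Finset (Fin n))), 0 ≤ (if U.Nonempty ∧
              (U.card : ℝ) ≤ 2 * (n : ℝ) ^ (7 / 8 : ℝ) ∧ 10 * U.card ≤ eU ω U then mu p ω else 0) := by
            intro U _
            split_ifs
            · exact hmu ω
            · exact le_rfl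
          split_ifs with h3
          · obtain ⟨U, hU⟩ := h3
            have h4 := single_le_sum hnn (mem_univ U)
            rw [if_pos hU] at h4
            exact h4
          · exact sum_nonneg hnn
      _ = ∑ U : Finset (Fin n), ∑ ω : Fin n → Fin n → Bool, if U.Nonempty ∧
        (U.card : ℝ) ≤ 2 * (n : ℝ) ^ (7 / 8 : ℝ) ∧ 10 * U.card ≤ eU ω U then mu p ω else 0 :=
          sum_comm
      _ ≤ ∑ U : Finset (Fin n), f U.card := sum_le_sum fun U _ => h2 U
      _ = _ := by rw [powerset_univ]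
  refine h1.trans ?_
  rw [sum_powerset_apply_card, card_univ, Fintype.card_fin]
  set r : ℝ := (n : ℝ) ^ (-(1 / 8) : ℝ) / 2 with hr
  have hr0 : 0 < r := by positivity
  have hr1 : r ≤ 1 / 2 := by
    rw [hr]
    have : (n : ℝ) ^ (-(1 / 8) : ℝ) ≤ 1 := Real.rpow_le_one_of_one_le_of_nonpos hn1 (by norm_num)
    linarith
  have h5 : ∑ m ∈ range (n + 1), n.choose m • f m ≤ ∑ m ∈ range n, r ^ (m + 1) := by
    rw [sum_range_succ']
    have h6 : n.choose 0 • f 0 = 0 := by
      rw [hf]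
      simp
    rw [h6, add_zero]
    refine sum_le_sum fun m _ => ?_
    rw [nsmul_eq_mul]
    by_cases hc : ((m + 1 : ℕ) : ℝ) ≤ 2 * (n : ℝ) ^ (7 / 8 : ℝ)
    · have h7 : f (m + 1) = (((m + 1 : ℕ) * q / 10 * Real.exp 1) ^ 10) ^ (m + 1) := by
        rw [hf]
        simp only
        rw [if_pos ⟨by omega, hc⟩]
      rw [h7]
      exact term_le n (m + 1) hn (by omega) hc
    · have h7 : f (m + 1) = 0 := by
        rw [hf]
        simp only
        rw [if_neg (fun h => hc h.2)]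
      rw [h7, mul_zero]
      positivity
  refine h5.trans ?_
  have h8 : ∑ m ∈ range n, r ^ (m + 1) ≤ 2 * r := by
    have h9 : ∑ m ∈ range n, r ^ (m + 1) = r * ∑ m ∈ range n, r ^ m := by
      rw [mul_sum]
      refine sum_congr rfl fun m _ => ?_
      ring
    have h10 : ∑ m ∈ range n, r ^ m ≤ 2 := by
      have h11 := geom_sum_mul_neg r n
      have h12 : 0 ≤ r ^ n := by positivity
      have h13 : 0 ≤ ∑ m ∈ range n, r ^ m := sum_nonneg fun m _ => by positivity
      nlinarith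
    rw [h9]
    nlinarith
  refine h8.trans ?_
  have h14 : 2 * r = (n : ℝ) ^ (-(1 / 8) : ℝ) := by
    rw [hr]
    ring
  rw [h14]
  exact Real.rpow_le_rpow_of_exponent_le hn1 (by norm_num)

end Pool.Agent.Run7.h594.RG
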